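import Pool.Agent.P.MP_fcbc4b_ag.AAll

set_option autoImplicit false

/-- Expected resurgence for every ideal of big height at least two in a regular ring. -/
theorem Pool.Agent.Results.MP_fcbc4b_ag.ResurgenceAll.result :
    ∀ (R : Type) [CommRing R] [IsRegularRing R] (I : Ideal R) (h : ℕ), 2 ≤ h →
      (∀ P ∈ associatedPrimes R (R ⧸ I), P.height ≤ (h : ℕ∞)) →
      ∃ ρ : ℝ, ρ < h ∧ ∀ a n : ℕ, ρ * n ≤ a → ∀ r : R,
        (∀ P ∈ associatedPrimes R (R ⧸ I), ∃ t : R, t ∉ P ∧ t * r ∈ I ^ a) → r ∈ I ^ n := by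
  intro R _ _ I h h2 hh
  obtain ⟨B, hB, H⟩ := Pool.Agent.P.MP_fcbc4b_ag.gen_full I h2 hh
  have hB0 : (0 : ℝ) < B := by exact_mod_cast (by omega : 0 < B)
  refine ⟨h - 1 / B, sub_lt_self _ (by positivity), fun a n ha r hr => H n fun P hP => ?_⟩
  obtain ⟨t, ht, h1⟩ := hr P hP
  refine ⟨t, ht, Ideal.pow_le_pow_right ?_ h1⟩
  have h3 : B * (h * n) ≤ B * a + n := by
    have h4 := mul_le_mul_of_nonneg_left ha hB0.le
    have h5 : (B : ℝ) * ((h - 1 / B) * n) = B * (h * n) - n := by field_simp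
    have h6 : (B : ℝ) * (h * n) ≤ B * a + n := by linarith
    exact_mod_cast h6
  have h4 : n < B * (n / B + 1) := Nat.lt_mul_div_succ n (by omega)
  have h5 : h * n < a + (n / B + 1) := Nat.lt_of_mul_lt_mul_left (a := B) (by rw [mul_add]; omega)
  have h6 : n / B ≤ h * (n / B) := Nat.le_mul_of_pos_left _ (by omega)
  rw [Nat.mul_sub]
  omega

/-- The case of a radical ideal, with the symbolic powers taken over the minimal primes as in the
problem file: a linear saving on the exponent `h n`. -/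
theorem Pool.Agent.Results.MP_fcbc4b_ag.ResurgenceAll.radical_case
    (R : Type) [CommRing R] [IsRegularRing R] (I : Ideal R) (hI : I.IsRadical) (h : ℕ) (h2 : 2 ≤ h)
    (hh : ∀ P ∈ I.minimalPrimes, P.height ≤ (h : ℕ∞)) :
    ∃ B : ℕ, 1 ≤ B ∧ ∀ n : ℕ, ∀ r : R,
      (∀ P ∈ I.minimalPrimes, ∃ t : R, t ∉ P ∧ t * r ∈ I ^ (h * (n - n / B))) → r ∈ I ^ n := by
  have hsub := Pool.Agent.P.MP_fcbc4b_ag.ass_subset hI
  obtain ⟨ρ, hρ, H⟩ := Pool.Agent.Results.MP_fcbc4b_ag.ResurgenceAll.result R I h h2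
    fun P hP => hh P (hsub hP)
  obtain ⟨N, hN⟩ := exists_nat_ge (h / (h - ρ))
  refine ⟨N + 1, by omega, fun n r hr => H _ n ?_ r fun P hP => hr P (hsub hP)⟩
  have h1 : (h : ℝ) ≤ N * (h - ρ) := (div_le_iff₀ (sub_pos.mpr hρ)).mp hN
  have h3 : (N : ℝ) * (n / (N + 1) : ℕ) ≤ n := by
    exact_mod_cast (Nat.mul_le_mul_right _ N.le_succ).trans (Nat.mul_div_le n (N + 1))
  rw [Nat.cast_mul, Nat.cast_sub (Nat.div_le_self _ _)]
  nlinarith [mul_le_mul_of_nonneg_right h1 (Nat.cast_nonneg (n / (N + 1))),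
    mul_le_mul_of_nonneg_right h3 (sub_pos.mpr hρ).le]
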