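import Pool.Agent.P.MP_fcbc4b_ag.Final

set_option autoImplicit false

/-- The stable Harbourne containment for every radical ideal of every regular ring. -/
theorem Pool.Agent.Results.MP_fcbc4b_ag.Stable.result :
    ∀ (R : Type) [CommRing R] [IsRegularRing R] (I : Ideal R), I.IsRadical → ∀ h : ℕ,
      (∀ P ∈ I.minimalPrimes, P.height ≤ (h : ℕ∞)) →
      ∃ N : ℕ, ∀ n : ℕ, N ≤ n → ∀ r : R,
        (∀ P ∈ I.minimalPrimes, ∃ t : R, t ∉ P ∧ t * r ∈ I ^ (h * n - h + 1)) → r ∈ I ^ n := by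
  intro R _ _ I hI h hh
  obtain ⟨N, hN⟩ := Pool.Agent.P.MP_fcbc4b_ag.gen_stable hI h hh
  exact ⟨N, fun n hn r hr => hN n hn hr⟩
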